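import Pool.Agent.W770.PC.Stms

set_option autoImplicit false

open MeasureTheory Set Filter Topology
open scoped ENNReal NNReal

namespace Pool.Agent.W19.PC

open Pool.Agent.W770.PC

theorem hess_nonneg (g : ℝ × ℝ → ℝ) (y : ℝ × ℝ) : 0 ≤ hess g y := by
  unfold hess
  positivity

theorem NN_nonneg (g : ℝ × ℝ → ℝ) (a : ℕ) (k : ℕ × ℕ) : 0 ≤ NN g a k :=
  integral_nonneg fun y => hess_nonneg g y

theorem gr_nonneg (g : ℝ × ℝ → ℝ) (x y : ℝ × ℝ) : 0 ≤ gr g x y := by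
  unfold gr
  positivity

theorem wt_nonneg (a : ℕ) (q : ℝ) (hq : 0 ≤ q) : 0 ≤ wt a q := by
  unfold wt
  positivity

theorem wt_le_one (a : ℕ) (q : ℝ) (hq : 0 ≤ q) : wt a q ≤ 1 := by
  unfold wt
  refine inv_le_one_of_one_le₀ ?_
  refine one_le_pow₀ ?_
  have : 0 ≤ q / 2 ^ a := by positivity
  linarith

theorem wt_anti (a : ℕ) (p q : ℝ) (hp : 0 ≤ p) (hpq : p ≤ q) : wt a q ≤ wt a p := by
  unfold wt
  gcongr

theorem ph_smooth {F h : ℝ × ℝ → ℝ} (hF : ContDiff ℝ (⊤ : ℕ∞) F) (hh : ContDiff ℝ (⊤ : ℕ∞) h)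
    (t : ℝ) : ContDiff ℝ (⊤ : ℕ∞) (ph F h t) := by
  unfold ph
  exact hF.add (contDiff_const.mul hh)

/-- bounds on a flat cell -/
theorem flat_bounds {C : ℝ} {F h : ℝ × ℝ → ℝ} (H : Tame C F h) (t : ℝ) (a : ℕ) (k : ℕ × ℕ)
    (hk : k ∈ grid a) (hN : NN (ph F h t) a k ≤ 1) : ∀ y ∈ cell a k,
    hess (ph F h t) y ≤ |C| * 4 ^ a ∧
      |d1 (d1 (d1 (ph F h t))) y| + |d2 (d2 (d2 (ph F h t))) y| ≤ |C| * 8 ^ a := by
  intro y hy
  have h0 := NN_nonneg (ph F h t) a k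
  have hC := le_abs_self C
  have hC0 := abs_nonneg C
  constructor
  · calc hess (ph F h t) y ≤ C * 4 ^ a * NN (ph F h t) a k := H.sup2 t a k hk y hy
      _ ≤ |C| * 4 ^ a * NN (ph F h t) a k := by gcongr
      _ ≤ |C| * 4 ^ a * 1 := by gcongr
      _ = |C| * 4 ^ a := mul_one _
  · calc |d1 (d1 (d1 (ph F h t))) y| + |d2 (d2 (d2 (ph F h t))) y|
        ≤ C * 8 ^ a * NN (ph F h t) a k := H.sup3 t a k hk y hy
      _ ≤ |C| * 8 ^ a * NN (ph F h t) a k := by gcongr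
      _ ≤ |C| * 8 ^ a * 1 := by gcongr
      _ = |C| * 8 ^ a := mul_one _

theorem mem_KK {C : ℝ} {g : ℝ × ℝ → ℝ} {a b : ℕ} {k : ℕ × ℕ} (hk : k ∈ KK C g a b) :
    k ∈ grid a ∧ NN g a k ≤ 1 ∧ 1 ≤ C * NN g a k ∧ cls b (DD g a k) := by
  classical
  unfold KK at hk
  simpa only [Finset.mem_filter] using hk

theorem sup_thm (h1 : S_J) (h2 : S_det) (h3 : S_slice) (_h4 : S_der) : S_sup := by
  intro C B
  obtain ⟨KJ, hKJ, HJ⟩ := h1 |C| B
  obtain ⟨Kd, hKd, Hd⟩ := h2 C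
  obtain ⟨Ks, hKs, Hs⟩ := h3 C
  refine ⟨KJ * (Kd + Ks) + 4 * KJ, by positivity, ?_⟩
  intro ψ F h hψ hT t x
  have hg := ph_smooth hT.smF hT.smh t
  have hJ : ∀ (a : ℕ) (k : ℕ × ℕ), k ∈ grid a → NN (ph F h t) a k ≤ 1 →
      ‖J ψ (ph F h t) a k x‖ ≤
        KJ * ((4 ^ a)⁻¹ * wt a (gr (ph F h t) x (cen a k))) := fun a k hk hN =>
    HJ ψ (ph F h t) hψ hg a k (flat_bounds hT t a k hk hN) x
  constructor
  · intro a b
    set S0 := ∑ k ∈ KK C (ph F h t) a b, (4 ^ a : ℝ)⁻¹ * wt a (gr (ph F h t) x (cen a k)) with hS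
    have h5 : ‖uu C ψ (ph F h t) a b x‖ ≤ KJ * S0 := by
      unfold uu
      calc ‖∑ k ∈ KK C (ph F h t) a b, J ψ (ph F h t) a k x‖
          ≤ ∑ k ∈ KK C (ph F h t) a b, ‖J ψ (ph F h t) a k x‖ := norm_sum_le _ _
        _ ≤ ∑ k ∈ KK C (ph F h t) a b,
            KJ * ((4 ^ a)⁻¹ * wt a (gr (ph F h t) x (cen a k))) := by
            refine Finset.sum_le_sum fun k hk => ?_
            have hk' := mem_KK hk
            exact hJ a k hk'.1 hk'.2.1
        _ = KJ * S0 := by rw [hS, Finset.mul_sum]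
    have h6 : S0 ≤ (Kd + Ks) * (1 / 2 ^ a) := by
      have := Hs F h hT t a b x
      calc S0 ≤ Ks / 2 ^ a := this
        _ ≤ (Kd + Ks) * (1 / 2 ^ a) := by
          rw [mul_one_div]
          gcongr
          linarith
    have h7 : S0 ≤ (Kd + Ks) * (1 / 2 ^ b) := by
      rcases Nat.eq_zero_or_pos b with rfl | hb
      · refine h6.trans ?_
        have h8 : (1 : ℝ) / 2 ^ a ≤ 1 / 2 ^ 0 := by
          rw [pow_zero, div_one]
          refine (div_le_one (by positivity)).2 (one_le_pow₀ (by norm_num))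
        exact mul_le_mul_of_nonneg_left h8 (by positivity)
      · have := Hd F h hT t a b x hb
        calc S0 ≤ Kd / 2 ^ b := this
          _ ≤ (Kd + Ks) * (1 / 2 ^ b) := by
            rw [mul_one_div]
            gcongr
            linarith
    have h9 : S0 ≤ (Kd + Ks) * min (1 / 2 ^ a) (1 / 2 ^ b) := by
      rcases min_choice ((1 : ℝ) / 2 ^ a) (1 / 2 ^ b) with h | h
      · rw [h]
        exact h6
      · rw [h]
        exact h7
    have h10 : (0 : ℝ) ≤ min (1 / 2 ^ a) (1 / 2 ^ b) := by positivity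
    calc ‖uu C ψ (ph F h t) a b x‖ ≤ KJ * S0 := h5
      _ ≤ KJ * ((Kd + Ks) * min (1 / 2 ^ a) (1 / 2 ^ b)) := by gcongr
      _ ≤ (KJ * (Kd + Ks) + 4 * KJ) * min (1 / 2 ^ a) (1 / 2 ^ b) := by
          nlinarith [mul_nonneg hKJ h10]
  · unfold uz
    calc ‖∑ k ∈ FL (ph F h t) 0, J ψ (ph F h t) 0 k x‖
        ≤ ∑ k ∈ FL (ph F h t) 0, ‖J ψ (ph F h t) 0 k x‖ := norm_sum_le _ _
      _ ≤ ∑ k ∈ FL (ph F h t) 0, KJ := by
          refine Finset.sum_le_sum fun k hk => ?_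
          obtain ⟨hk1, hk2⟩ := Finset.mem_filter.1 hk
          refine (hJ 0 k hk1 hk2).trans ?_
          have h5 := wt_le_one 0 _ (gr_nonneg (ph F h t) x (cen 0 k))
          rw [pow_zero, inv_one, one_mul]
          nlinarith
      _ = (FL (ph F h t) 0).card * KJ := by rw [Finset.sum_const, nsmul_eq_mul]
      _ ≤ 4 * KJ := by
          have h5 : (FL (ph F h t) 0).card ≤ 4 := by
            calc (FL (ph F h t) 0).card ≤ (grid 0).card := Finset.card_filter_le _ _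
              _ = 4 := by
                unfold grid
                simp
          have h6 : ((FL (ph F h t) 0).card : ℝ) ≤ 4 := by exact_mod_cast h5
          gcongr
      _ ≤ KJ * (Kd + Ks) + 4 * KJ := by
          have : 0 ≤ KJ * (Kd + Ks) := by positivity
          linarith

end Pool.Agent.W19.PC
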