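import Pool.Agent.W770.PC.Stms
import Pool.Agent.W19.PC.Sup

set_option autoImplicit false

open MeasureTheory Set Filter Topology
open scoped ENNReal NNReal

namespace Pool.Agent.W19.PC

open Pool.Agent.W770.PC

theorem measurable_wt (a : ℕ) : Measurable (wt a) := by
  unfold wt
  exact (((measurable_const.add (measurable_id.div_const _)).pow_const 3)).inv

theorem continuous_d1 {g : ℝ × ℝ → ℝ} (h1 : S_der) (hg : ContDiff ℝ (⊤ : ℕ∞) g) :
    Continuous (d1 g) := (h1 g hg).1.continuous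

theorem continuous_d2 {g : ℝ × ℝ → ℝ} (h1 : S_der) (hg : ContDiff ℝ (⊤ : ℕ∞) g) :
    Continuous (d2 g) := (h1 g hg).2.1.continuous

theorem continuous_hess {g : ℝ × ℝ → ℝ} (h1 : S_der) (hg : ContDiff ℝ (⊤ : ℕ∞) g) :
    Continuous (hess g) := (h1 g hg).2.2.2.2.2.2.2.1

theorem isCompact_cell (a : ℕ) (k : ℕ × ℕ) : IsCompact (cell a k) :=
  isCompact_Icc.prod isCompact_Icc

theorem ofReal_NN {g : ℝ × ℝ → ℝ} (h1 : S_der) (hg : ContDiff ℝ (⊤ : ℕ∞) g) (a : ℕ)
    (k : ℕ × ℕ) : ENNReal.ofReal (NN g a k) = ∫⁻ y in cell a k, ENNReal.ofReal (hess g y) := by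
  unfold NN
  refine ofReal_integral_eq_lintegral_ofReal ?_ (Eventually.of_forall fun y => hess_nonneg g y)
  exact (continuous_hess h1 hg).continuousOn.integrableOn_compact (isCompact_cell a k)

theorem slice_thm (h1 : S_der) (h2 : S_comp) (h3 : S_cell) (h4 : S_wint) : S_slice := by
  intro C
  obtain ⟨K1, hK1, H1⟩ := h2 |C|
  obtain ⟨Cw, hCw, Hw⟩ := h4
  refine ⟨27 * C ^ 2 * K1 * Cw, by positivity, ?_⟩
  intro F h hT t a b x
  have hg := ph_smooth hT.smF hT.smh t
  set g := ph F h t with hgdef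
  have hRHS : 0 ≤ 27 * C ^ 2 * K1 * Cw / 2 ^ a := by positivity
  rcases Finset.eq_empty_or_nonempty (KK C g a b) with hE | ⟨k0, hk0⟩
  · rw [hE, Finset.sum_empty]
    exact hRHS
  have hC : 0 < C := by
    have h5 := mem_KK hk0
    have h6 := NN_nonneg g a k0
    by_contra hcon
    have : C * NN g a k0 ≤ 0 := mul_nonpos_of_nonpos_of_nonneg (not_lt.1 hcon) h6
    linarith [h5.2.2.1]
  rw [← ENNReal.ofReal_le_ofReal_iff hRHS, ENNReal.ofReal_sum_of_nonneg (fun k _ =>
    mul_nonneg (by positivity) (wt_nonneg a _ (gr_nonneg g x _)))]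
  have hm1 : Measurable (fun y => ENNReal.ofReal (wt a (gr g x y) * hess g y)) := by
    refine ENNReal.measurable_ofReal.comp ?_
    refine Measurable.mul ?_ (continuous_hess h1 hg).measurable
    refine (measurable_wt a).comp ?_
    unfold gr
    have := continuous_d1 h1 hg
    have := continuous_d2 h1 hg
    exact Continuous.measurable (by fun_prop)
  have hmh : Measurable (fun y => ENNReal.ofReal (hess g y)) :=
    ENNReal.measurable_ofReal.comp (continuous_hess h1 hg).measurable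
  -- one cell
  have hcell : ∀ k ∈ KK C g a b, ENNReal.ofReal ((4 ^ a)⁻¹ * wt a (gr g x (cen a k))) ≤
      ENNReal.ofReal ((4 ^ a)⁻¹ * C * K1) *
        ∫⁻ y in cell a k, ENNReal.ofReal (wt a (gr g x y) * hess g y) := by
    intro k hk
    obtain ⟨hk1, hk2, hk3, -⟩ := mem_KK hk
    have hW := wt_nonneg a _ (gr_nonneg g x (cen a k))
    have hN := NN_nonneg g a k
    have e1 : ENNReal.ofReal ((4 ^ a)⁻¹ * wt a (gr g x (cen a k)))
        ≤ ENNReal.ofReal (((4 ^ a)⁻¹ * C) * (wt a (gr g x (cen a k)) * NN g a k)) := by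
      refine ENNReal.ofReal_le_ofReal ?_
      have h5 : wt a (gr g x (cen a k)) * 1 ≤
          wt a (gr g x (cen a k)) * (C * NN g a k) := by gcongr
      calc (4 ^ a : ℝ)⁻¹ * wt a (gr g x (cen a k))
          = (4 ^ a : ℝ)⁻¹ * (wt a (gr g x (cen a k)) * 1) := by ring
        _ ≤ (4 ^ a : ℝ)⁻¹ * (wt a (gr g x (cen a k)) * (C * NN g a k)) := by gcongr
        _ = ((4 ^ a)⁻¹ * C) * (wt a (gr g x (cen a k)) * NN g a k) := by ring
    have e2 : ENNReal.ofReal (wt a (gr g x (cen a k)) * NN g a k) =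
        ∫⁻ y in cell a k, ENNReal.ofReal (wt a (gr g x (cen a k)) * hess g y) := by
      rw [ENNReal.ofReal_mul hW, ofReal_NN h1 hg, ← lintegral_const_mul _ hmh]
      refine lintegral_congr fun y => ?_
      rw [ENNReal.ofReal_mul hW]
    have e3 : ∫⁻ y in cell a k, ENNReal.ofReal (wt a (gr g x (cen a k)) * hess g y) ≤
        ∫⁻ y in cell a k, ENNReal.ofReal (K1 * (wt a (gr g x y) * hess g y)) := by
      refine setLIntegral_mono' (isCompact_cell a k).measurableSet fun y hy => ?_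
      refine ENNReal.ofReal_le_ofReal ?_
      have h5 := H1 g hg a k (fun y hy => (flat_bounds hT t a k hk1 hk2 y hy).1) x y hy
      calc wt a (gr g x (cen a k)) * hess g y ≤ (K1 * wt a (gr g x y)) * hess g y :=
            mul_le_mul_of_nonneg_right h5 (hess_nonneg g y)
        _ = K1 * (wt a (gr g x y) * hess g y) := by ring
    have e4 : ∫⁻ y in cell a k, ENNReal.ofReal (K1 * (wt a (gr g x y) * hess g y)) =
        ENNReal.ofReal K1 * ∫⁻ y in cell a k, ENNReal.ofReal (wt a (gr g x y) * hess g y) := by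
      rw [← lintegral_const_mul _ hm1]
      refine lintegral_congr fun y => ?_
      rw [ENNReal.ofReal_mul hK1]
    calc ENNReal.ofReal ((4 ^ a)⁻¹ * wt a (gr g x (cen a k)))
        ≤ ENNReal.ofReal (((4 ^ a)⁻¹ * C) * (wt a (gr g x (cen a k)) * NN g a k)) := e1
      _ = ENNReal.ofReal ((4 ^ a)⁻¹ * C) *
          ENNReal.ofReal (wt a (gr g x (cen a k)) * NN g a k) :=
          ENNReal.ofReal_mul (by positivity)
      _ ≤ ENNReal.ofReal ((4 ^ a)⁻¹ * C) * (ENNReal.ofReal K1 *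
          ∫⁻ y in cell a k, ENNReal.ofReal (wt a (gr g x y) * hess g y)) := by
          rw [e2]
          exact mul_le_mul_right (e3.trans e4.le) _
      _ = ENNReal.ofReal ((4 ^ a)⁻¹ * C * K1) *
          ∫⁻ y in cell a k, ENNReal.ofReal (wt a (gr g x y) * hess g y) := by
          rw [← mul_assoc, ← ENNReal.ofReal_mul (by positivity)]
  have hsum : ∑ k ∈ KK C g a b, ENNReal.ofReal ((4 ^ a)⁻¹ * wt a (gr g x (cen a k))) ≤
      ENNReal.ofReal ((4 ^ a)⁻¹ * C * K1) *
        (9 * ∫⁻ y in Om, ENNReal.ofReal (wt a (gr g x y) * hess g y)) := by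
    calc ∑ k ∈ KK C g a b, ENNReal.ofReal ((4 ^ a)⁻¹ * wt a (gr g x (cen a k)))
        ≤ ∑ k ∈ KK C g a b, ENNReal.ofReal ((4 ^ a)⁻¹ * C * K1) *
          ∫⁻ y in cell a k, ENNReal.ofReal (wt a (gr g x y) * hess g y) :=
          Finset.sum_le_sum hcell
      _ = ENNReal.ofReal ((4 ^ a)⁻¹ * C * K1) * ∑ k ∈ KK C g a b,
          ∫⁻ y in cell a k, ENNReal.ofReal (wt a (gr g x y) * hess g y) := by
          rw [Finset.mul_sum]
      _ ≤ _ := mul_le_mul_right (h3.2.2.2 a _ (fun k hk => (mem_KK hk).1) _ hm1) _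
  -- the integral over the large square
  have hpt : ∀ y, ENNReal.ofReal (wt a (gr g x y) * hess g y) ≤
      (ENNReal.ofReal (wt a |d1 g y + x.1|) * ENNReal.ofReal |d1 (d1 g) y| +
        ENNReal.ofReal (wt a |d1 g y + x.1|) * ENNReal.ofReal |d1 (d2 g) y|) +
        ENNReal.ofReal (wt a |d2 g y + x.2|) * ENNReal.ofReal |d2 (d2 g) y| := by
    intro y
    have w1 := wt_nonneg a _ (abs_nonneg (d1 g y + x.1))
    have w2 := wt_nonneg a _ (abs_nonneg (d2 g y + x.2))
    have u1 : wt a (gr g x y) ≤ wt a |d1 g y + x.1| := by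
      refine wt_anti a _ _ (abs_nonneg _) ?_
      unfold gr
      linarith [abs_nonneg (d2 g y + x.2)]
    have u2 : wt a (gr g x y) ≤ wt a |d2 g y + x.2| := by
      refine wt_anti a _ _ (abs_nonneg _) ?_
      unfold gr
      linarith [abs_nonneg (d1 g y + x.1)]
    rw [← ENNReal.ofReal_mul w1, ← ENNReal.ofReal_mul w1, ← ENNReal.ofReal_mul w2,
      ← ENNReal.ofReal_add (by positivity) (by positivity),
      ← ENNReal.ofReal_add (by positivity) (by positivity)]
    refine ENNReal.ofReal_le_ofReal ?_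
    unfold hess
    have a1 := abs_nonneg (d1 (d1 g) y)
    have a2 := abs_nonneg (d1 (d2 g) y)
    have a3 := abs_nonneg (d2 (d2 g) y)
    calc wt a (gr g x y) * (|d1 (d1 g) y| + |d1 (d2 g) y| + |d2 (d2 g) y|)
        = wt a (gr g x y) * |d1 (d1 g) y| + wt a (gr g x y) * |d1 (d2 g) y| +
          wt a (gr g x y) * |d2 (d2 g) y| := by ring
      _ ≤ _ := by gcongr
  have m1 : ∀ z : ℝ, Measurable (fun v : ℝ => ENNReal.ofReal (wt a |v + z|)) := fun z =>
    ENNReal.measurable_ofReal.comp ((measurable_wt a).comp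
      (Continuous.measurable (by fun_prop)))
  have c1 := continuous_d1 h1 hg
  have c2 := continuous_d2 h1 hg
  have c11 := continuous_d1 h1 (h1 g hg).1
  have c12 := continuous_d1 h1 (h1 g hg).2.1
  have c22 := continuous_d2 h1 (h1 g hg).2.1
  have hOm : ∫⁻ y in Om, ENNReal.ofReal (wt a (gr g x y) * hess g y) ≤
      3 * (ENNReal.ofReal C * ENNReal.ofReal (Cw * 2 ^ a)) := by
    have n1 : Measurable (fun y : ℝ × ℝ => ENNReal.ofReal (wt a |d1 g y + x.1|) *
        ENNReal.ofReal |d1 (d1 g) y|) :=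
      ((m1 x.1).comp c1.measurable).mul (ENNReal.measurable_ofReal.comp c11.abs.measurable)
    have n2 : Measurable (fun y : ℝ × ℝ => ENNReal.ofReal (wt a |d1 g y + x.1|) *
        ENNReal.ofReal |d1 (d2 g) y|) :=
      ((m1 x.1).comp c1.measurable).mul (ENNReal.measurable_ofReal.comp c12.abs.measurable)
    calc ∫⁻ y in Om, ENNReal.ofReal (wt a (gr g x y) * hess g y)
        ≤ ∫⁻ y in Om, ((ENNReal.ofReal (wt a |d1 g y + x.1|) * ENNReal.ofReal |d1 (d1 g) y| +
          ENNReal.ofReal (wt a |d1 g y + x.1|) * ENNReal.ofReal |d1 (d2 g) y|) +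
          ENNReal.ofReal (wt a |d2 g y + x.2|) * ENNReal.ofReal |d2 (d2 g) y|) :=
          lintegral_mono hpt
      _ = (∫⁻ y in Om, ENNReal.ofReal (wt a |d1 g y + x.1|) * ENNReal.ofReal |d1 (d1 g) y|) +
          (∫⁻ y in Om, ENNReal.ofReal (wt a |d1 g y + x.1|) * ENNReal.ofReal |d1 (d2 g) y|) +
          ∫⁻ y in Om, ENNReal.ofReal (wt a |d2 g y + x.2|) * ENNReal.ofReal |d2 (d2 g) y| := by
          have n12 : Measurable (fun y : ℝ × ℝ => ENNReal.ofReal (wt a |d1 g y + x.1|) *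
              ENNReal.ofReal |d1 (d1 g) y| + ENNReal.ofReal (wt a |d1 g y + x.1|) *
              ENNReal.ofReal |d1 (d2 g) y|) := n1.add n2
          rw [lintegral_add_left n12, lintegral_add_left n1]
      _ ≤ ENNReal.ofReal C * ENNReal.ofReal (Cw * 2 ^ a) +
          ENNReal.ofReal C * ENNReal.ofReal (Cw * 2 ^ a) +
          ENNReal.ofReal C * ENNReal.ofReal (Cw * 2 ^ a) := by
          refine add_le_add (add_le_add ?_ ?_) ?_
          · exact (hT.line11 t _ (m1 x.1)).trans (mul_le_mul_right ((Hw a).1 x.1) _)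
          · exact (hT.line12 t _ (m1 x.1)).trans (mul_le_mul_right ((Hw a).1 x.1) _)
          · exact (hT.line22 t _ (m1 x.2)).trans (mul_le_mul_right ((Hw a).1 x.2) _)
      _ = 3 * (ENNReal.ofReal C * ENNReal.ofReal (Cw * 2 ^ a)) := by ring
  refine hsum.trans ?_
  calc ENNReal.ofReal ((4 ^ a)⁻¹ * C * K1) *
        (9 * ∫⁻ y in Om, ENNReal.ofReal (wt a (gr g x y) * hess g y))
      ≤ ENNReal.ofReal ((4 ^ a)⁻¹ * C * K1) *
        (9 * (3 * (ENNReal.ofReal C * ENNReal.ofReal (Cw * 2 ^ a)))) :=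
        mul_le_mul_right (mul_le_mul_right hOm _) _
    _ = ENNReal.ofReal (27 * C ^ 2 * K1 * Cw / 2 ^ a) := by
        have n9 : (9 : ℝ≥0∞) = ENNReal.ofReal 9 := by
          rw [ENNReal.ofReal_ofNat]
        have n3 : (3 : ℝ≥0∞) = ENNReal.ofReal 3 := by
          rw [ENNReal.ofReal_ofNat]
        rw [n9, n3, ← ENNReal.ofReal_mul hC.le, ← ENNReal.ofReal_mul (by norm_num),
          ← ENNReal.ofReal_mul (by norm_num), ← ENNReal.ofReal_mul (by positivity)]
        congr 1
        have h4 : (4 : ℝ) ^ a = 2 ^ a * 2 ^ a := by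
          rw [← mul_pow]
          norm_num
        rw [h4]
        field_simp
        ring

end Pool.Agent.W19.PC
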